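import Pool.Agent.Y305.BC.Stm

/-!
# Integer rectifiable currents: additivity and decay at infinity

Job BC-LIN (helper340).
-/

set_option autoImplicit false

open MeasureTheory Metric Set Filter Topology
open scoped ContDiff ENNReal

namespace Pool.Agent.Y340.BC

open Pool.Agent.Y305.BC

theorem alt_le (θ : E →L[ℝ] E →L[ℝ] ℝ) (h : ∀ v, θ v v = 0) (v w : E) :
    |θ v w| ≤ ‖θ‖ * area v w := by
  by_cases hv : v = 0
  · rw [hv, map_zero, zero_apply, abs_zero]
    exact mul_nonneg (norm_nonneg θ) (Real.sqrt_nonneg _)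
  have hv0 : 0 < ‖v‖ := norm_pos_iff.mpr hv
  set c : ℝ := inner ℝ v w / ‖v‖ ^ 2 with hc
  have h1 : θ v (w - c • v) = θ v w := by
    rw [map_sub, map_smul, h, smul_zero, sub_zero]
  have h2 : ‖v‖ * ‖w - c • v‖ = area v w := by
    have h3 : ‖w - c • v‖ ^ 2 = ‖w‖ ^ 2 - 2 * (c * inner ℝ v w) + c ^ 2 * ‖v‖ ^ 2 := by
      rw [norm_sub_sq_real, inner_smul_right, real_inner_comm, norm_smul, mul_pow,
        Real.norm_eq_abs, sq_abs]
    have h4 : (‖v‖ * ‖w - c • v‖) ^ 2 = ‖v‖ ^ 2 * ‖w‖ ^ 2 - (inner ℝ v w) ^ 2 := by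
      rw [mul_pow, h3, hc]
      field_simp
      ring
    unfold area
    rw [← h4, Real.sqrt_sq (by positivity)]
  rw [← h1, ← h2]
  calc |θ v (w - c • v)| = ‖θ v (w - c • v)‖ := (Real.norm_eq_abs _).symm
    _ ≤ ‖θ‖ * ‖v‖ * ‖w - c • v‖ := θ.le_opNorm₂ v _
    _ = _ := by ring

theorem area_meas (f : ℂ → E) :
    Measurable fun z => area (fderiv ℝ f z 1) (fderiv ℝ f z Complex.I) := by
  borelize E
  have h1 := measurable_fderiv_apply_const ℝ f 1
  have h2 := measurable_fderiv_apply_const ℝ f Complex.I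
  unfold area
  exact (((h1.norm.pow_const 2).mul (h2.norm.pow_const 2)).sub
    ((h1.inner h2).pow_const 2)).sqrt

theorem integrand_meas {θ : F2} (hθ : Continuous θ) {f : ℂ → E} (hf : Continuous f) :
    StronglyMeasurable fun z => θ (f z) (fderiv ℝ f z 1) (fderiv ℝ f z Complex.I) := by
  borelize E
  have h1 := (measurable_fderiv_apply_const ℝ f 1).stronglyMeasurable
  have h2 := (measurable_fderiv_apply_const ℝ f Complex.I).stronglyMeasurable
  have h3 : StronglyMeasurable fun z => θ (f z) := (hθ.comp hf).stronglyMeasurable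
  have hc : Continuous fun p : (E →L[ℝ] E →L[ℝ] ℝ) × E × E => p.1 p.2.1 p.2.2 :=
    (continuous_fst.clm_apply continuous_snd.fst).clm_apply continuous_snd.snd
  exact hc.comp_stronglyMeasurable (h3.prodMk (h1.prodMk h2))

theorem area_nonneg (v w : E) : 0 ≤ area v w := Real.sqrt_nonneg _

theorem gen_bound {X : Type} [NormedAddCommGroup X] [NormedSpace ℝ X] {G : Type}
    [NormedAddCommGroup G] [NormedSpace ℝ G] (θ : X → G) (h1 : ContDiff ℝ ∞ θ)
    (h2 : HasCompactSupport θ) : ∃ C : ℝ, ∀ x, ‖θ x‖ ≤ C :=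
  h2.exists_bound_of_continuous h1.continuous

theorem gen_add {X : Type} [NormedAddCommGroup X] [NormedSpace ℝ X] {G : Type}
    [NormedAddCommGroup G] [NormedSpace ℝ G] (θ₁ θ₂ : X → G) (h1 : ContDiff ℝ ∞ θ₁)
    (h2 : ContDiff ℝ ∞ θ₂) (h3 : HasCompactSupport θ₁) (h4 : HasCompactSupport θ₂) :
    ContDiff ℝ ∞ (fun x => θ₁ x + θ₂ x) ∧ HasCompactSupport (fun x => θ₁ x + θ₂ x) :=
  ⟨h1.add h2, h3.add h4⟩

section

variable {f : ℕ → ℂ → E} {A : ℕ → Set ℂ}

theorem area_int (hfin : (∑' j, ∫⁻ z in A j, ENNReal.ofReal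
      (area (fderiv ℝ (f j) z 1) (fderiv ℝ (f j) z Complex.I))) ≠ ⊤) (j : ℕ) :
    IntegrableOn (fun z => area (fderiv ℝ (f j) z 1) (fderiv ℝ (f j) z Complex.I)) (A j) := by
  have h := ENNReal.ne_top_of_tsum_ne_top hfin j
  refine ⟨(area_meas (f j)).aestronglyMeasurable, ?_⟩
  rw [hasFiniteIntegral_iff_ofReal (Eventually.of_forall fun z => area_nonneg _ _)]
  exact lt_top_iff_ne_top.mpr h

theorem area_sum (hfin : (∑' j, ∫⁻ z in A j, ENNReal.ofReal
      (area (fderiv ℝ (f j) z 1) (fderiv ℝ (f j) z Complex.I))) ≠ ⊤) :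
    Summable fun j => ∫ z in A j, area (fderiv ℝ (f j) z 1) (fderiv ℝ (f j) z Complex.I) := by
  have h := ENNReal.summable_toReal hfin
  refine h.congr fun j => ?_
  rw [integral_eq_lintegral_of_nonneg_ae (Eventually.of_forall fun z => area_nonneg _ _)
    (area_meas (f j)).aestronglyMeasurable]

theorem push_int (hlip : ∀ j, ∃ K, LipschitzWith K (f j))
    (hfin : (∑' j, ∫⁻ z in A j, ENNReal.ofReal
      (area (fderiv ℝ (f j) z 1) (fderiv ℝ (f j) z Complex.I))) ≠ ⊤) {θ : F2}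
    (hθ : Form2 univ θ) {C : ℝ} (hC : ∀ x, ‖θ x‖ ≤ C) (j : ℕ) :
    IntegrableOn (fun z => θ (f j z) (fderiv ℝ (f j) z 1) (fderiv ℝ (f j) z Complex.I)) (A j) ∧
    |push (f j) (A j) θ| ≤
      C * ∫ z in A j, area (fderiv ℝ (f j) z 1) (fderiv ℝ (f j) z Complex.I) := by
  obtain ⟨K, hK⟩ := hlip j
  have hb : ∀ z, ‖θ (f j z) (fderiv ℝ (f j) z 1) (fderiv ℝ (f j) z Complex.I)‖ ≤
      C * area (fderiv ℝ (f j) z 1) (fderiv ℝ (f j) z Complex.I) := by
    intro z
    rw [Real.norm_eq_abs]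
    refine (alt_le (θ (f j z)) (hθ.2.2.2 (f j z)) _ _).trans ?_
    exact mul_le_mul_of_nonneg_right (hC _) (area_nonneg _ _)
  have hi : Integrable (fun z => C * area (fderiv ℝ (f j) z 1) (fderiv ℝ (f j) z Complex.I))
      (volume.restrict (A j)) := (area_int hfin j).const_mul C
  have hm : AEStronglyMeasurable
      (fun z => θ (f j z) (fderiv ℝ (f j) z 1) (fderiv ℝ (f j) z Complex.I))
      (volume.restrict (A j)) :=
    (integrand_meas hθ.1.continuous hK.continuous).aestronglyMeasurable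
  refine ⟨hi.mono' hm (Eventually.of_forall hb), ?_⟩
  have h := norm_integral_le_of_norm_le hi (Eventually.of_forall hb)
  rw [integral_const_mul, Real.norm_eq_abs] at h
  exact h

theorem form_bound {θ : F2} (hθ : Form2 univ θ) : ∃ C : ℝ, ∀ x, ‖θ x‖ ≤ C :=
  gen_bound θ hθ.1 hθ.2.1

theorem push_sum (hlip : ∀ j, ∃ K, LipschitzWith K (f j))
    (hfin : (∑' j, ∫⁻ z in A j, ENNReal.ofReal
      (area (fderiv ℝ (f j) z 1) (fderiv ℝ (f j) z Complex.I))) ≠ ⊤) {θ : F2}
    (hθ : Form2 univ θ) : Summable fun j => push (f j) (A j) θ := by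
  obtain ⟨C, hC⟩ := form_bound hθ
  refine Summable.of_norm_bounded ((area_sum hfin).mul_left C) fun j => ?_
  rw [Real.norm_eq_abs]
  exact (push_int hlip hfin hθ hC j).2

end

theorem form_add {θ₁ θ₂ : F2} (h₁ : Form2 univ θ₁) (h₂ : Form2 univ θ₂) :
    Form2 univ (fun x => θ₁ x + θ₂ x) := by
  have h := gen_add θ₁ θ₂ h₁.1 h₂.1 h₁.2.1 h₂.2.1
  refine ⟨h.1, h.2, subset_univ _, fun x v => ?_⟩
  rw [add_apply, add_apply, h₁.2.2.2, h₂.2.2.2, add_zero]

theorem lin : S_LIN := by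
  rintro S ⟨f, A, hlip, hmeas, hfin, hS⟩ θ₁ θ₂ h₁ h₂
  rw [hS _ (form_add h₁ h₂), hS _ h₁, hS _ h₂,
    ← (push_sum hlip hfin h₁).tsum_add (push_sum hlip hfin h₂)]
  refine tsum_congr fun j => ?_
  obtain ⟨C₁, hC₁⟩ := form_bound h₁
  obtain ⟨C₂, hC₂⟩ := form_bound h₂
  unfold push
  rw [← integral_add (push_int hlip hfin h₁ hC₁ j).1 (push_int hlip hfin h₂ hC₂ j).1]
  refine integral_congr_ae (Eventually.of_forall fun z => ?_)
  show (θ₁ (f j z) + θ₂ (f j z)) _ _ = _
  rw [add_apply, add_apply]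

theorem far : S_FAR := by
  rintro S ⟨f, A, hlip, hmeas, hfin, hS⟩ C θ hθ hC hz
  have h1 : ∀ j, Tendsto (fun n => push (f j) (A j) (θ n)) atTop (𝓝 0) := by
    intro j
    obtain ⟨K, hK⟩ := hlip j
    have hlim := tendsto_integral_of_dominated_convergence
      (μ := volume.restrict (A j)) (f := fun _ => (0 : ℝ))
      (F := fun n z => θ n (f j z) (fderiv ℝ (f j) z 1) (fderiv ℝ (f j) z Complex.I))
      (fun z => C * area (fderiv ℝ (f j) z 1) (fderiv ℝ (f j) z Complex.I))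
      (fun n => (integrand_meas (hθ n).1.continuous hK.continuous).aestronglyMeasurable)
      ((area_int hfin j).const_mul C)
      (fun n => Eventually.of_forall fun z => by
        rw [Real.norm_eq_abs]
        refine (alt_le (θ n (f j z)) ((hθ n).2.2.2 (f j z)) _ _).trans ?_
        exact mul_le_mul_of_nonneg_right (hC _ _) (area_nonneg _ _))
      (Eventually.of_forall fun z => by
        refine tendsto_const_nhds.congr' ?_
        filter_upwards [eventually_ge_atTop ⌈‖f j z‖⌉₊] with n hn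
        rw [hz n (f j z) ((Nat.le_ceil _).trans (by exact_mod_cast hn)),
          zero_apply, zero_apply])
    rw [integral_zero] at hlim
    exact hlim
  have h2 := tendsto_tsum_of_dominated_convergence (𝓕 := atTop)
    (f := fun n j => push (f j) (A j) (θ n)) (g := fun _ : ℕ => (0 : ℝ))
    (bound := fun j => C * ∫ z in A j, area (fderiv ℝ (f j) z 1) (fderiv ℝ (f j) z Complex.I))
    ((area_sum hfin).mul_left C) h1
    (Eventually.of_forall fun n j => by
      rw [Real.norm_eq_abs]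
      exact (push_int hlip hfin (hθ n) (hC n) j).2)
  rw [tsum_zero] at h2
  exact h2.congr fun n => (hS _ (hθ n)).symm

end Pool.Agent.Y340.BC
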